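import Pool.Agent.Helper32.PD.Defs

set_option autoImplicit false

namespace Pool.Agent.Helper32.PD

open Finset
open scoped Classical

namespace CommonAux

/-- a digraph with small out-degrees has an independent set -/
theorem indep {α : Type} (R : α → α → Prop) (d : ℕ) : ∀ (m : ℕ) (S : Finset α),
    (∀ a ∈ S, (S.filter fun b => R a b).card ≤ d) → m * (2 * d + 1) ≤ S.card →
    ∃ t ⊆ S, t.card = m ∧ ∀ a ∈ t, ∀ b ∈ t, a ≠ b → ¬ R a b := by
  intro m
  induction m with
  | zero => intro S _ _; exact ⟨∅, by simp, by simp, by simp⟩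
  | succ m ih =>
    intro S hS hc
    have hne : 0 < S.card := by
      have : 0 < (m + 1) * (2 * d + 1) := by positivity
      omega
    -- a vertex with small in-degree
    obtain ⟨v, hv, hin⟩ : ∃ v ∈ S, (S.filter fun a => R a v).card ≤ d := by
      by_contra hcon
      push Not at hcon
      have h1 : ∑ a ∈ S, (S.filter fun b => R a b).card = ∑ b ∈ S, (S.filter fun a => R a b).card := by
        have := Finset.sum_card_bipartiteAbove_eq_sum_card_bipartiteBelow (s := S) (t := S) R
        simpa [Finset.bipartiteAbove, Finset.bipartiteBelow] using this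
      have h2 : ∑ a ∈ S, (S.filter fun b => R a b).card ≤ S.card * d := by
        have := Finset.sum_le_card_nsmul S (fun a => (S.filter fun b => R a b).card) d hS
        simpa using this
      have h3 : S.card * (d + 1) ≤ ∑ b ∈ S, (S.filter fun a => R a b).card := by
        have := Finset.card_nsmul_le_sum S (fun b => (S.filter fun a => R a b).card) (d + 1)
          (fun b hb => hcon b hb)
        simpa using this
      have h4 : S.card * (d + 1) = S.card * d + S.card := by ring
      omega
    set S' := S.filter fun b => b ≠ v ∧ ¬ R v b ∧ ¬ R b v with hS'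
    have hsub : S ⊆ S' ∪ ({v} ∪ ((S.filter fun b => R v b) ∪ (S.filter fun a => R a v))) := by
      intro x hx
      simp only [hS', mem_union, mem_filter, mem_singleton]
      tauto
    have hcard : S.card ≤ S'.card + (1 + (d + d)) := by
      refine (Finset.card_le_card hsub).trans ?_
      refine (Finset.card_union_le _ _).trans ?_
      refine Nat.add_le_add_left ?_ _
      refine (Finset.card_union_le _ _).trans ?_
      refine Nat.add_le_add (by simp) ?_
      refine (Finset.card_union_le _ _).trans ?_
      exact Nat.add_le_add (hS v hv) hin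
    have hS'S : S' ⊆ S := Finset.filter_subset _ _
    obtain ⟨t, ht, htc, hti⟩ := ih S' (fun a ha => by
      refine (Finset.card_le_card ?_).trans (hS a (hS'S ha))
      exact Finset.filter_subset_filter _ hS'S) (by
      have : (m + 1) * (2 * d + 1) = m * (2 * d + 1) + (2 * d + 1) := by ring
      omega)
    refine ⟨insert v t, ?_, ?_, ?_⟩
    · intro x hx
      rcases Finset.mem_insert.1 hx with rfl | hx
      · exact hv
      · exact hS'S (ht hx)
    · rw [Finset.card_insert_of_notMem, htc]
      intro hvt
      have := ht hvt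
      simp [hS'] at this
    · intro a ha b hb hab
      rcases Finset.mem_insert.1 ha with rfl | ha'
      · rcases Finset.mem_insert.1 hb with rfl | hb'
        · exact absurd rfl hab
        · have := ht hb'
          simp only [hS', mem_filter] at this
          exact this.2.2.1
      · rcases Finset.mem_insert.1 hb with rfl | hb'
        · have := ht ha'
          simp only [hS', mem_filter] at this
          exact this.2.2.2
        · exact hti a ha' b hb' hab

end CommonAux

open CommonAux in
theorem common_or_private (m : ℕ) : ∃ (T : ℕ) (c₁ : ℝ), 0 < c₁ ∧ c₁ ≤ 1 ∧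
    ∀ (V : Type) (n : ℕ) (Q : Fin T → Finset V) (ξ : ℝ), 0 < ξ → (∀ l, ξ * n ≤ (Q l).card) →
      ∃ σ : Fin m → Fin T, Function.Injective σ ∧
        ((∃ X : Finset V, (∀ x ∈ X, ∀ i, x ∈ Q (σ i)) ∧ c₁ * ξ * n ≤ X.card) ∨
          ∀ i, c₁ * ξ * n ≤
            ((Q (σ i)).filter fun x => ∀ j, j ≠ i → x ∉ Q (σ j)).card) := by
  rcases Nat.eq_zero_or_pos m with rfl | hm
  · exact ⟨0, 1, one_pos, le_rfl, fun V n Q ξ _ _ => ⟨Fin.elim0, fun i => i.elim0,
      Or.inr fun i => i.elim0⟩⟩
  set T : ℕ := m * (2 * (2 * m * m) + 1) with hT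
  have hmT : m ≤ T := by
    rw [hT]; exact Nat.le_mul_of_pos_right m (Nat.succ_pos _)
  have hTpos : 0 < T := lt_of_lt_of_le hm hmT
  have hTm : (1 : ℝ) ≤ (T : ℝ) ^ m := by
    have : (1 : ℝ) ≤ (T : ℝ) := by exact_mod_cast hTpos
    exact one_le_pow₀ this
  refine ⟨T, 1 / (4 * (T : ℝ) ^ m), by positivity, ?_, ?_⟩
  · rw [div_le_one (by positivity)]; linarith
  intro V n Q ξ hξ hQ
  set num : V → ℕ := fun x => (univ.filter fun l => x ∈ Q l).card with hnum
  by_cases hbig : ∃ l, ξ / 2 * n ≤ ((Q l).filter fun x => m ≤ num x).card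
  · obtain ⟨l, hl⟩ := hbig
    have hex : ∀ x : V, ∃ σ : Fin m → Fin T, m ≤ num x → Function.Injective σ ∧ ∀ i, x ∈ Q (σ i) := by
      intro x
      by_cases hx : m ≤ num x
      · obtain ⟨s, hs, hsc⟩ := Finset.exists_subset_card_eq hx
        refine ⟨fun i => (s.orderEmbOfFin hsc) i, fun _ => ⟨?_, ?_⟩⟩
        · exact (s.orderEmbOfFin hsc).injective
        · intro i
          have := hs (Finset.orderEmbOfFin_mem s hsc i)
          exact (Finset.mem_filter.1 this).2
      · exact ⟨fun _ => ⟨0, hTpos⟩, fun h => absurd h hx⟩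
    choose σ hσ using hex
    set D := (Q l).filter fun x => m ≤ num x with hD
    by_cases hne : D.Nonempty
    · obtain ⟨x₀, hx₀⟩ := hne
      -- pigeonhole
      have hpig : ∃ τ ∈ (D.image σ), (D.card : ℝ) / (T : ℝ) ^ m ≤
          ((D.filter fun x => σ x = τ).card : ℝ) := by
        by_contra hcon
        push Not at hcon
        have h1 : (D.card : ℝ) = ∑ τ ∈ D.image σ, ((D.filter fun x => σ x = τ).card : ℝ) := by
          have := Finset.card_eq_sum_card_image σ D
          exact_mod_cast this
        have h2 : ∑ τ ∈ D.image σ, ((D.filter fun x => σ x = τ).card : ℝ) <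
            ∑ τ ∈ D.image σ, (D.card : ℝ) / (T : ℝ) ^ m :=
          Finset.sum_lt_sum_of_nonempty ⟨σ x₀, Finset.mem_image_of_mem _ hx₀⟩ hcon
        have h3 : ((D.image σ).card : ℝ) ≤ (T : ℝ) ^ m := by
          have : (D.image σ).card ≤ T ^ m := by
            refine (Finset.card_le_univ _).trans ?_
            simp
          exact_mod_cast this
        rw [Finset.sum_const, nsmul_eq_mul] at h2
        have h4 : ((D.image σ).card : ℝ) * ((D.card : ℝ) / (T : ℝ) ^ m) ≤ D.card := by
          calc ((D.image σ).card : ℝ) * ((D.card : ℝ) / (T : ℝ) ^ m)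
              ≤ (T : ℝ) ^ m * ((D.card : ℝ) / (T : ℝ) ^ m) := by gcongr
            _ = D.card := by field_simp
        linarith
      obtain ⟨τ, hτ, hτc⟩ := hpig
      obtain ⟨x₁, hx₁, rfl⟩ := Finset.mem_image.1 hτ
      refine ⟨σ x₁, (hσ x₁ (Finset.mem_filter.1 hx₁).2).1, Or.inl
        ⟨D.filter fun x => σ x = σ x₁, ?_, ?_⟩⟩
      · intro x hx i
        obtain ⟨hx, hxe⟩ := Finset.mem_filter.1 hx
        rw [← hxe]
        exact (hσ x (Finset.mem_filter.1 hx).2).2 i
      · refine le_trans ?_ hτc
        rw [div_mul_eq_mul_div, div_mul_eq_mul_div, div_le_div_iff₀ (by positivity) (by positivity)]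
        have hnn : (0 : ℝ) ≤ n := Nat.cast_nonneg n
        have : ξ * n ≤ 4 * D.card := by
          have h0 : 0 ≤ ξ * n := by positivity
          nlinarith
        calc 1 * ξ * n * (T : ℝ) ^ m = (ξ * n) * (T : ℝ) ^ m := by ring
          _ ≤ (4 * D.card) * (T : ℝ) ^ m := by gcongr
          _ = D.card * (4 * (T : ℝ) ^ m) := by ring
    · -- D empty: n = 0 (in effect)
      rw [Finset.not_nonempty_iff_eq_empty] at hne
      rw [hne] at hl
      simp only [Finset.card_empty, Nat.cast_zero] at hl
      refine ⟨fun i => ⟨i, lt_of_lt_of_le i.2 hmT⟩, fun a b h => ?_, Or.inl ⟨∅, by simp, ?_⟩⟩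
      · exact Fin.ext (by simpa using h)
      · have h0 : ξ * n ≤ 0 := by nlinarith
        have : 1 / (4 * (T : ℝ) ^ m) * (ξ * n) ≤ 0 :=
          mul_nonpos_of_nonneg_of_nonpos (by positivity) h0
        simpa [mul_assoc] using this
  · push Not at hbig
    -- the small parts
    set Q' : Fin T → Finset V := fun l => (Q l).filter fun x => ¬ m ≤ num x with hQ'
    have hQ'c : ∀ l, ξ / 2 * n ≤ (Q' l).card := by
      intro l
      have h1 := Finset.card_filter_add_card_filter_not (s := Q l) (fun x => m ≤ num x)
      have h2 : (((Q l).filter fun x => m ≤ num x).card : ℝ) + ((Q' l).card : ℝ) = (Q l).card := by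
        exact_mod_cast h1
      have h3 := hbig l
      have h4 := hQ l
      linarith
    set R : Fin T → Fin T → Prop := fun l l' =>
      (Q' l).card < 2 * m * ((Q' l).filter fun x => x ∈ Q l').card with hR
    have hout : ∀ a ∈ (univ : Finset (Fin T)), ((univ : Finset (Fin T)).filter fun b => R a b).card ≤ 2 * m * m := by
      intro a _
      have hsum : ∑ b ∈ (univ : Finset (Fin T)), ((Q' a).filter fun x => x ∈ Q b).card ≤ (Q' a).card * m := by
        have h1 : ∑ b ∈ (univ : Finset (Fin T)), ((Q' a).filter fun x => x ∈ Q b).card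
            = ∑ x ∈ Q' a, num x := by
          have := Finset.sum_card_bipartiteAbove_eq_sum_card_bipartiteBelow
            (s := (univ : Finset (Fin T))) (t := Q' a) (fun b x => x ∈ Q b)
          simpa [Finset.bipartiteAbove, Finset.bipartiteBelow, hnum] using this
        rw [h1]
        have := Finset.sum_le_card_nsmul (Q' a) num m (fun x hx => by
          have := (Finset.mem_filter.1 hx).2
          omega)
        simpa using this
      by_contra hcon
      push Not at hcon
      set B := (univ : Finset (Fin T)).filter fun b => R a b with hB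
      have h2 : ∑ b ∈ B, (Q' a).card + B.card ≤ ∑ b ∈ B, 2 * m * ((Q' a).filter fun x => x ∈ Q b).card := by
        have : ∑ b ∈ B, ((Q' a).card + 1) ≤ ∑ b ∈ B, 2 * m * ((Q' a).filter fun x => x ∈ Q b).card := by
          apply Finset.sum_le_sum
          intro b hb
          exact (Finset.mem_filter.1 hb).2
        rw [Finset.sum_add_distrib] at this
        simpa using this
      have h3 : ∑ b ∈ B, 2 * m * ((Q' a).filter fun x => x ∈ Q b).card ≤ 2 * m * ((Q' a).card * m) := by
        rw [← Finset.mul_sum]
        refine Nat.mul_le_mul_left _ (le_trans ?_ hsum)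
        exact Finset.sum_le_sum_of_subset (Finset.filter_subset _ _)
      rw [Finset.sum_const, smul_eq_mul] at h2
      have h4 : 2 * m * ((Q' a).card * m) ≤ B.card * (Q' a).card := by
        calc 2 * m * ((Q' a).card * m) = (2 * m * m) * (Q' a).card := by ring
          _ ≤ B.card * (Q' a).card := Nat.mul_le_mul_right _ hcon.le
      omega
    obtain ⟨t, -, htc, hti⟩ := indep R (2 * m * m) m univ
      (by intro a ha; convert hout a ha) (by simp [hT])
    refine ⟨fun i => t.orderEmbOfFin htc i, (t.orderEmbOfFin htc).injective, Or.inr ?_⟩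
    intro i
    set l := t.orderEmbOfFin htc i with hl
    have hsub : Q' l ⊆ ((Q l).filter fun x => ∀ j, j ≠ i → x ∉ Q (t.orderEmbOfFin htc j)) ∪
        ((univ.erase i).biUnion fun j => (Q' l).filter fun x => x ∈ Q (t.orderEmbOfFin htc j)) := by
      intro x hx
      by_cases hall : ∀ j, j ≠ i → x ∉ Q (t.orderEmbOfFin htc j)
      · exact Finset.mem_union_left _ (Finset.mem_filter.2 ⟨(Finset.mem_filter.1 hx).1, hall⟩)
      · push Not at hall
        obtain ⟨j, hj, hxj⟩ := hall
        refine Finset.mem_union_right _ (Finset.mem_biUnion.2 ⟨j, ?_, ?_⟩)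
        · simpa using hj
        · exact Finset.mem_filter.2 ⟨hx, hxj⟩
    have hc1 := (Finset.card_le_card hsub).trans (Finset.card_union_le _ _)
    have hc2 : 2 * m * ((univ.erase i).biUnion fun j =>
        (Q' l).filter fun x => x ∈ Q (t.orderEmbOfFin htc j)).card ≤ m * (Q' l).card := by
      calc 2 * m * ((univ.erase i).biUnion fun j =>
            (Q' l).filter fun x => x ∈ Q (t.orderEmbOfFin htc j)).card
          ≤ 2 * m * ∑ j ∈ univ.erase i, ((Q' l).filter fun x => x ∈ Q (t.orderEmbOfFin htc j)).card :=
            Nat.mul_le_mul_left _ Finset.card_biUnion_le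
        _ = ∑ j ∈ univ.erase i, 2 * m * ((Q' l).filter fun x => x ∈ Q (t.orderEmbOfFin htc j)).card := by
            rw [Finset.mul_sum]
        _ ≤ ∑ j ∈ (univ.erase i : Finset (Fin m)), (Q' l).card := by
            apply Finset.sum_le_sum
            intro j hj
            have hne : l ≠ t.orderEmbOfFin htc j := by
              intro h
              have := (t.orderEmbOfFin htc).injective h
              simp [this] at hj
            have := hti l (Finset.orderEmbOfFin_mem t htc i) _ (Finset.orderEmbOfFin_mem t htc j) hne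
            simp only [hR] at this
            omega
        _ ≤ m * (Q' l).card := by
            rw [Finset.sum_const, smul_eq_mul]
            refine Nat.mul_le_mul_right _ ?_
            refine (Finset.card_le_univ _).trans ?_
            simp
    have hc3 : 2 * ((univ.erase i).biUnion fun j =>
        (Q' l).filter fun x => x ∈ Q (t.orderEmbOfFin htc j)).card ≤ (Q' l).card := by
      have : m * (2 * ((univ.erase i).biUnion fun j =>
        (Q' l).filter fun x => x ∈ Q (t.orderEmbOfFin htc j)).card) ≤ m * (Q' l).card := by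
        calc _ = 2 * m * ((univ.erase i).biUnion fun j =>
              (Q' l).filter fun x => x ∈ Q (t.orderEmbOfFin htc j)).card := by ring
          _ ≤ _ := hc2
      exact Nat.le_of_mul_le_mul_left this hm
    have hc4 : (Q' l).card ≤ 2 * ((Q l).filter fun x => ∀ j, j ≠ i →
        x ∉ Q (t.orderEmbOfFin htc j)).card := by omega
    have hc5 : ((Q' l).card : ℝ) ≤ 2 * ((Q l).filter fun x => ∀ j, j ≠ i →
        x ∉ Q (t.orderEmbOfFin htc j)).card := by exact_mod_cast hc4
    have hc6 := hQ'c l
    have hnn : (0 : ℝ) ≤ ξ * n := by positivity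
    have hc7 : 1 / (4 * (T : ℝ) ^ m) * ξ * n ≤ ξ * n / 4 := by
      rw [mul_assoc, div_mul_eq_mul_div, one_mul]
      apply div_le_div_of_nonneg_left hnn (by norm_num)
      linarith
    linarith

end Pool.Agent.Helper32.PD
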